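import Pool.Agent.Y367.RC.Main

/-!
# The relative Cannon conjecture for locally uniformly quasi-Moebius boundary actions

`τ` is a geometrically finite convergence action of `G` on the sphere: every point is a conical
limit point or a bounded parabolic point (stabiliser finitely generated, not virtually cyclic,
cocompact on the complement of the point), without global fixed point.  By theorems of Bowditch
and Yaman these are the actions of relatively hyperbolic groups on their Bowditch boundary, when
this boundary is the sphere.

Theorem.  The action is conjugate to the boundary action of a properly discontinuous isometric
action of finite covolume on hyperbolic 3-space if and only if it is uniformly quasi-Moebius on ONE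
nonempty open subset `U` of the sphere, in some coordinate `f : U → S²` (an embedding), if and only
if there is, on one nonempty open subset, a net of maps to `S²` (not assumed continuous) with
locally bounded and asymptotically invariant cross ratios.
-/

set_option autoImplicit false

namespace Pool.Agent.Results.MP_04c03c_gt.CuspedLocalSullivanTukia

open Pool.Agent.Y320.CM Pool.Agent.Y367.RC

theorem result (G : Type) [Group G] (τ : G → Sph → Sph) (h : GeometricallyFinite G τ) :
    ((∃ U, LocallyQuasiMoebius G τ U) ↔ ConjugateToLattice G τ) ∧
      ((∃ U, AsymptoticCoordinates G τ U) ↔ ConjugateToLattice G τ) :=
  Pool.Agent.Y367.RC.main h

end Pool.Agent.Results.MP_04c03c_gt.CuspedLocalSullivanTukia
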